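import Pool.Agent.Lib.MP_ff3579_an.X.H38.Common

/-!
Module THL: a large prime for `N / 60 ≤ k ≤ N / 20`.
-/

set_option autoImplicit false

open Finset

namespace Pool.Agent.Lib.MP_ff3579_an.X.H38

open Pool.Agent.Lib.MP_ff3579_an Pool.Agent.Lib.MP_ff3579_an.H78

theorem log_1896 : 2.928 ≤ Real.log 18.96 := by
  have h1 : 1 - (18.96 / 16 : ℝ)⁻¹ ≤ Real.log (18.96 / 16) :=
    Real.one_sub_inv_le_log_of_pos (by norm_num)
  rw [Real.log_div (by norm_num) (by norm_num)] at h1
  have h2 : Real.log 16 = 4 * Real.log 2 := by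
    rw [show (16 : ℝ) = 2 ^ 4 by norm_num, Real.log_pow]; norm_num
  have h3 := Real.log_two_gt_d9
  norm_num at h1 h3 ⊢
  linarith

theorem log_389 : 3.64 ≤ Real.log 38.9 := by
  have h1 : 1 - (38.9 / 32 : ℝ)⁻¹ ≤ Real.log (38.9 / 32) :=
    Real.one_sub_inv_le_log_of_pos (by norm_num)
  rw [Real.log_div (by norm_num) (by norm_num)] at h1
  have h2 : Real.log 32 = 5 * Real.log 2 := by
    rw [show (32 : ℝ) = 2 ^ 5 by norm_num, Real.log_pow]; norm_num
  have h3 := Real.log_two_gt_d9
  norm_num at h1 h3 ⊢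
  linarith

theorem thl (hpst : PstStatement) : ThlStatement := by
  intro N k hN hNk h20
  by_contra hbad
  have hk : 417 ≤ k := by omega
  have hkR : (417 : ℝ) ≤ k := by exact_mod_cast hk
  have hsq : 2 * N < (2 * k + 2) ^ 2 := by nlinarith
  -- all primes are small
  have hprimes : ∀ p, p.Prime → p ∣ N.choose (k + 1) → p ≤ 2 * k + 1 := by
    intro p hp hdvd
    by_contra h
    push Not at h
    have h1 : p ∣ N.descFactorial (k + 1) := by
      rw [Nat.descFactorial_eq_factorial_mul_choose]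
      exact hdvd.mul_left _
    rw [Nat.descFactorial_eq_prod_range, hp.prime.dvd_finset_prod_iff] at h1
    obtain ⟨b, hb, hb2⟩ := h1
    rw [mem_range] at hb
    exact hbad ⟨p, b, hp, by omega, hsq.trans_le (Nat.pow_le_pow_left (by omega) 2), by omega, hb2⟩
  have hub := log_choose_le hpst (n := N) (r := k + 1) (M := 2 * k + 1) (by omega) (by omega)
    (by omega) hprimes
  have hlb := le_log_choose (n := N) (r := k + 1) (by omega) (by omega)
  have h4 := log_four_le
  have hlog := log_le_lin (x := (k : ℝ) + 1) (by positivity)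
  have hcast : ((N + 1 - (k + 1) : ℕ) : ℝ) = N - k := by
    have : N + 1 - (k + 1) = N - k := by omega
    rw [this, Nat.cast_sub (by omega)]
  rw [hcast] at hlb
  push_cast at hlb hub
  have hM2 : Real.log 4 * (2 * (k : ℝ) + 1) ≤ 1.3863 * (2 * k + 1) :=
    mul_le_mul_of_nonneg_right h4 (by positivity)
  have h20R : 20 * (k : ℝ) ≤ N := by exact_mod_cast h20
  have hNkR : (N : ℝ) ≤ 60 * k := by exact_mod_cast hNk
  have hNR : (25000 : ℝ) ≤ N := by exact_mod_cast hN
  have hk0 : (0 : ℝ) < (k : ℝ) + 1 := by linarith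
  rcases le_or_gt (N : ℝ) (40 * k) with hc | hc
  · have hk625 : (625 : ℝ) ≤ k := by linarith
    have hr : (18.96 : ℝ) ≤ (N - k) / (k + 1) := by
      rw [le_div_iff₀ hk0]
      linarith
    have hl := Real.log_le_log (by norm_num) hr
    have hl2 := log_1896
    have hs : √(N : ℝ) ≤ 0.2531 * k := by
      apply Real.sqrt_le_iff.2
      refine ⟨by positivity, ?_⟩
      nlinarith
    have h5 : ((k : ℝ) + 1) * (2.928 + 1) ≤
        (k + 1) * (Real.log ((N - k) / (k + 1)) + 1) :=
      mul_le_mul_of_nonneg_left (by linarith) (by positivity)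
    linarith
  · have hr : (38.9 : ℝ) ≤ (N - k) / (k + 1) := by
      rw [le_div_iff₀ hk0]
      linarith
    have hl := Real.log_le_log (by norm_num) hr
    have hl2 := log_389
    have hs : √(N : ℝ) ≤ 0.38 * k := by
      apply Real.sqrt_le_iff.2
      refine ⟨by positivity, ?_⟩
      nlinarith
    have h5 : ((k : ℝ) + 1) * (3.64 + 1) ≤
        (k + 1) * (Real.log ((N - k) / (k + 1)) + 1) :=
      mul_le_mul_of_nonneg_left (by linarith) (by positivity)
    linarith

end Pool.Agent.Lib.MP_ff3579_an.X.H38
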