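import Pool.Agent.Lib.MP_ff3579_an.X.H38.Common
import Pool.Agent.Lib.MP_ff3579_an.H78.CountE

/-!
Module THW: a good prime for `√N / 2 ≤ k ≤ N / 60`.
-/

set_option autoImplicit false

open Finset

namespace Pool.Agent.Lib.MP_ff3579_an.X.H38

open Pool.Agent.Lib.MP_ff3579_an Pool.Agent.Lib.MP_ff3579_an.H78

theorem log_145 : 2.669 ≤ Real.log 14.5 := by
  have h1 : 1 - (14.5 / 16 : ℝ)⁻¹ ≤ Real.log (14.5 / 16) :=
    Real.one_sub_inv_le_log_of_pos (by norm_num)
  rw [Real.log_div (by norm_num) (by norm_num)] at h1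
  have h2 : Real.log 16 = 4 * Real.log 2 := by
    rw [show (16 : ℝ) = 2 ^ 4 by norm_num, Real.log_pow]; norm_num
  have h3 := Real.log_two_gt_d9
  norm_num at h1 h3 ⊢
  linarith

theorem log_39 : 3.64 ≤ Real.log 39 := by
  have h1 : 1 - (39 / 32 : ℝ)⁻¹ ≤ Real.log (39 / 32) :=
    Real.one_sub_inv_le_log_of_pos (by norm_num)
  rw [Real.log_div (by norm_num) (by norm_num)] at h1
  have h2 : Real.log 32 = 5 * Real.log 2 := by
    rw [show (32 : ℝ) = 2 ^ 5 by norm_num, Real.log_pow]; norm_num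
  have h3 := Real.log_two_gt_d9
  norm_num at h1 h3 ⊢
  linarith

theorem thw (hpst : PstStatement) : ThwStatement := by
  intro N k hN hNk h60
  by_contra hbad
  have hk80 : 80 ≤ k := by nlinarith
  have hkR : (80 : ℝ) ≤ k := by exact_mod_cast hk80
  -- all primes are small
  have hprimes : ∀ p, p.Prime → p ∣ (N + 2 * k).choose (4 * k) → p ≤ 8 * k - 3 := by
    intro p hp hdvd
    by_contra hlt
    push Not at hlt
    have hp8 : 8 * k ≤ p + 2 := by omega
    obtain ⟨x, hx1, hx2, hx3⟩ := exists_window_dvd (N := N) hp (by omega) (by omega) hp8 hdvd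
    have hC0 : (N + 2 * k).choose (4 * k) ≠ 0 := (Nat.choose_pos (by omega)).ne'
    have hv := (hp.dvd_iff_one_le_factorization hC0).1 hdvd
    have hpx : p ^ 1 ∣ x := (pow_dvd_pow p hv).trans hx3
    have hlog : Nat.log p (2 * N) ≤ 1 := by
      have h1 : 2 * N < p ^ 2 := by
        have h2 : 8 * k - 2 ≤ p := by omega
        have h3 : (8 * k - 2) ^ 2 ≤ p ^ 2 := Nat.pow_le_pow_left h2 2
        have h4 : 2 * N < (8 * k - 2) ^ 2 := by
          have h5 : 7 * k ≤ 8 * k - 2 := by omega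
          have h6 : (7 * k) ^ 2 ≤ (8 * k - 2) ^ 2 := Nat.pow_le_pow_left h5 2
          nlinarith
        omega
      have := Nat.log_lt_of_lt_pow (by omega) h1
      omega
    apply hbad
    refine ⟨p, x, 1, hp, hp8, hx1, hx2, le_refl _, hpx, Or.inl ?_⟩
    have h3 : 2 * k * (2 + Nat.log p (2 * N)) ≤ 2 * k * 3 := Nat.mul_le_mul_left _ (by omega)
    omega
  have hub := log_choose_le hpst (n := N + 2 * k) (r := 4 * k) (M := 8 * k - 3) (by omega) (by omega)
    (by omega) hprimes
  have hlb := le_log_choose (n := N + 2 * k) (r := 4 * k) (by omega) (by omega)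
  have h4 := log_four_le
  have hlog := log_le_lin (x := 4 * (k : ℝ)) (by positivity)
  have hM : ((8 * k - 3 : ℕ) : ℝ) ≤ 8 * k := by
    have : 8 * k - 3 ≤ 8 * k := by omega
    exact_mod_cast this
  have hM2 : Real.log 4 * ((8 * k - 3 : ℕ) : ℝ) ≤ 1.3863 * (8 * k) :=
    mul_le_mul h4 hM (by positivity) (by norm_num)
  have hcast : ((N + 2 * k + 1 - 4 * k : ℕ) : ℝ) = N + 1 - 2 * k := by
    have : N + 2 * k + 1 - 4 * k = N + 1 - 2 * k := by omega
    rw [this, Nat.cast_sub (by omega)]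
    push_cast
    ring
  rw [hcast] at hlb
  push_cast at hlb hub
  have h60R : 60 * (k : ℝ) ≤ N := by exact_mod_cast h60
  have hNkR : (N : ℝ) ≤ 4 * k ^ 2 := by exact_mod_cast hNk
  have hNR : (25000 : ℝ) ≤ N := by exact_mod_cast hN
  have hk0 : (0 : ℝ) < 4 * k := by linarith
  rcases le_or_gt (N : ℝ) ((k : ℝ) ^ 2) with hc | hc
  · have hk158 : (158 : ℝ) ≤ k := by nlinarith
    have hr : (14.5 : ℝ) ≤ (N + 1 - 2 * k) / (4 * k) := by
      rw [le_div_iff₀ hk0]
      linarith
    have hl := Real.log_le_log (by norm_num) hr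
    have hl2 := log_145
    have hs : √((N : ℝ) + 2 * k) ≤ 1.017 * k := by
      apply Real.sqrt_le_iff.2
      refine ⟨by positivity, ?_⟩
      nlinarith
    have h5 : 4 * (k : ℝ) * (2.669 + 1) ≤
        4 * k * (Real.log ((N + 1 - 2 * k) / (4 * k)) + 1) :=
      mul_le_mul_of_nonneg_left (by linarith) (by positivity)
    linarith
  · have hs158 : (158 : ℝ) * k ≤ N := by
      by_contra hlt
      push Not at hlt
      have h5 : (k : ℝ) ^ 2 < 158 * k := by linarith
      have h6 : (k : ℝ) < 158 := by nlinarith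
      have h7 : (N : ℝ) < 158 * 158 := by nlinarith
      linarith
    have hr : (39 : ℝ) ≤ (N + 1 - 2 * k) / (4 * k) := by
      rw [le_div_iff₀ hk0]
      linarith
    have hl := Real.log_le_log (by norm_num) hr
    have hl2 := log_39
    have hs : √((N : ℝ) + 2 * k) ≤ 2.04 * k := by
      apply Real.sqrt_le_iff.2
      refine ⟨by positivity, ?_⟩
      nlinarith
    have h5 : 4 * (k : ℝ) * (3.64 + 1) ≤
        4 * k * (Real.log ((N + 1 - 2 * k) / (4 * k)) + 1) :=
      mul_le_mul_of_nonneg_left (by linarith) (by positivity)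
    linarith

end Pool.Agent.Lib.MP_ff3579_an.X.H38
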