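import Pool.Agent.Lib.MP_ff3579_an.X.Iface
import Pool.Agent.Lib.MP_ff3579_an.H78.CountD
import Pool.Agent.Lib.MP_ff3579_an.H78.Cheb

/-!
Upper and lower bounds for the logarithm of a binomial coefficient all of whose prime factors are
small.
-/

set_option autoImplicit false

open Finset

namespace Pool.Agent.Lib.MP_ff3579_an.X.H38

open Pool.Agent.Lib.MP_ff3579_an Pool.Agent.Lib.MP_ff3579_an.H78

/-- upper bound of a binomial coefficient with small prime factors -/
theorem log_choose_le (hpst : PstStatement) {n r M : ℕ} (hr : r ≤ n) (hn : 25000 ≤ n)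
    (hM : M ≤ n) (hprimes : ∀ p, p.Prime → p ∣ n.choose r → p ≤ M) :
    Real.log (n.choose r) ≤ Real.log 4 * M + 3.2 * √(n : ℝ) := by
  have hC : n.choose r ≠ 0 := (Nat.choose_pos hr).ne'
  have h1 := log_eq_sum_primes hC hprimes
  have hub : Real.log (n.choose r) ≤ Chebyshev.theta ((M : ℕ) : ℝ) +
      (Chebyshev.psi n - Chebyshev.theta n) := by
    rw [h1, Chebyshev.theta_eq_sum_primesLE_log, Chebyshev.psi_eq_sum_mul_log_prime,
      Chebyshev.theta_eq_sum_primesLE_log, ← Finset.sum_sub_distrib]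
    have hsub : Nat.primesLE M ⊆ Nat.primesLE n := by
      intro p hp
      rw [Nat.mem_primesLE] at hp ⊢
      exact ⟨by omega, hp.2⟩
    have h2 : ∑ p ∈ Nat.primesLE M, ((Nat.log p n : ℝ) * Real.log p - Real.log p) ≤
        ∑ p ∈ Nat.primesLE n, ((Nat.log p n : ℝ) * Real.log p - Real.log p) := by
      apply Finset.sum_le_sum_of_subset_of_nonneg hsub
      intro p hp _
      rw [Nat.mem_primesLE] at hp
      have h3 : 1 ≤ Nat.log p n := Nat.le_log_of_pow_le hp.2.one_lt (by simpa using hp.1)
      have h4 : (1 : ℝ) ≤ Nat.log p n := by exact_mod_cast h3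
      have h5 : 0 ≤ Real.log p := Real.log_natCast_nonneg p
      have h6 : (1 : ℝ) * Real.log p ≤ Nat.log p n * Real.log p :=
        mul_le_mul_of_nonneg_right h4 h5
      linarith
    have h3 : ∑ p ∈ Nat.primesLE M, ((n.choose r).factorization p : ℝ) *
        Real.log p ≤ ∑ p ∈ Nat.primesLE M, (Nat.log p n : ℝ) * Real.log p := by
      apply Finset.sum_le_sum
      intro p _
      apply mul_le_mul_of_nonneg_right _ (Real.log_natCast_nonneg p)
      exact_mod_cast Nat.factorization_choose_le_log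
    rw [Finset.sum_sub_distrib] at h2
    linarith
  have h2 := Chebyshev.theta_le_log4_mul_x (x := ((M : ℕ) : ℝ)) (by positivity)
  have h3 := hpst n hn
  linarith

/-- lower bound of a binomial coefficient -/
theorem le_log_choose {n r : ℕ} (hr1 : 1 ≤ r) (hr : r ≤ n) :
    r * (Real.log ((n + 1 - r : ℕ) / r : ℝ) + 1) - 1 - Real.log r ≤ Real.log (n.choose r) := by
  have h1 := Nat.pow_le_choose (α := ℝ) r n
  have hr0 : (0 : ℝ) < r := by exact_mod_cast hr1
  have hn0 : (0 : ℝ) < ((n + 1 - r : ℕ) : ℝ) := by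
    have : 0 < n + 1 - r := by omega
    exact_mod_cast this
  have hf0 : (0 : ℝ) < (r.factorial : ℝ) := by exact_mod_cast Nat.factorial_pos r
  have h2 := Real.log_le_log (by positivity) h1
  rw [Real.log_div (by positivity) hf0.ne', Real.log_pow] at h2
  have h3 := log_factorial_le hr1
  rw [Real.log_div hn0.ne' hr0.ne']
  have e : r * (Real.log ((n + 1 - r : ℕ) : ℝ) - Real.log r + 1) =
    r * Real.log ((n + 1 - r : ℕ) : ℝ) - (r * Real.log r - r) := by ring
  rw [e]
  linarith

/-- a bound of the logarithm -/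
theorem log_le_lin {x : ℝ} (hx : 0 < x) : Real.log x ≤ x / 64 + 3.2 := by
  have h1 : Real.log (x / 64) ≤ x / 64 - 1 := Real.log_le_sub_one_of_pos (by positivity)
  rw [Real.log_div hx.ne' (by norm_num)] at h1
  have h2 : Real.log 64 ≤ 4.16 := by
    rw [show (64 : ℝ) = 2 ^ 6 by norm_num, Real.log_pow]
    have := Real.log_two_lt_d9
    push_cast
    linarith
  linarith

theorem log_four_le : Real.log 4 ≤ 1.3863 := by
  rw [show (4 : ℝ) = 2 ^ 2 by norm_num, Real.log_pow]
  have := Real.log_two_lt_d9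
  push_cast
  linarith

end Pool.Agent.Lib.MP_ff3579_an.X.H38
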